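import Pool.Agent.H54.CF.Red

/-!
# MP_82d1fc_lc: the Diophantine problem in free groups and values of words without constants

`DP κ w` says that the equation `w = 1` (`w` a word in variables and in the constants `a`, `a : κ`)
has a solution in the free group on `κ`; `FreeGroup (Fin r)` is the free group of rank `r`, and `DP ℕ`
is the problem for the free group of countable rank, in which the constants are part of the input.
`VW` is the type of words in the variables `x_0, x_1, ...` without constants. `Val a b u` says that the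
commutator `[a, b]` of the constants `a, b` is a value of the word `u`, and `Sub κ (u, d)` that the
element `d` of the free group is a value of `u` (the image of `u` under a homomorphism). `PEquiv` is
polynomial-time many-one equivalence (Mathlib's Turing machines). The definitions are in
`Pool.Agent.H54.DF.Defs` and `Pool.Agent.H54.CF.Defs`.
-/

set_option autoImplicit false

namespace Pool.Agent.Results.MP_82d1fc_lc.ConstantFree

open Pool.Agent.H54.DF Pool.Agent.H54.CF Pool.Agent.H80.Poly Pool.Agent.H72.NP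

open scoped commutatorElement

theorem result :
    -- an equation over the free group on `a, b` has a solution exactly if `[a, b]` is a value of the
    -- word `[x, y] w ^ 24`, in which `a, b` are replaced by new variables `x, y`
    (∀ w : Wd (Fin 2), DP (Fin 2) w ↔ ∃ (x : Fin 2 → FreeGroup (Fin 2)) (s : ℕ → FreeGroup (Fin 2)),
      ⁅x 0, x 1⁆ * (ev x s w) ^ 24 = ⁅FreeGroup.of (0 : Fin 2), FreeGroup.of (1 : Fin 2)⁆) ∧
    -- the problem whether `[a, b]` is a value of a word without constants is equivalent to the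
    -- Diophantine problem for all ranks
    (∀ r' (a b : Fin r'), a ≠ b → PEquiv (Val a b) (DP ℕ) ∧
      ∀ r, 2 ≤ r → PEquiv (Val a b) (DP (Fin r))) ∧
    -- so is the substitution problem
    (∀ r', 2 ≤ r' → PEquiv (Sub (Fin r')) (DP ℕ) ∧
      ∀ r, 2 ≤ r → PEquiv (Sub (Fin r')) (DP (Fin r))) ∧
    -- so Q1 has the same answer for all of them
    (∀ r r' (a b : Fin r'), 2 ≤ r → a ≠ b →
      (InNP (BEnc.enc (α := Wd (Fin r))) (DP (Fin r)) ↔ InNP (BEnc.enc (α := VW)) (Val a b)) ∧
      (InNP (BEnc.enc (α := Wd (Fin r))) (DP (Fin r)) ↔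
        InNP (BEnc.enc (α := VW × CW (Fin r'))) (Sub (Fin r')))) := by
  have hab : ∀ r (h : 2 ≤ r), ∃ a b : Fin r, a ≠ b := fun r h =>
    ⟨⟨0, by omega⟩, ⟨1, by omega⟩, by simp [Fin.ext_iff]⟩
  -- the reductions in the class `PolyTime`
  have h1 : ∀ r, PRed (DP (Fin r)) (DP ℕ) := fun r => red_up
  have h2 : ∀ r, 2 ≤ r → PRed (DP ℕ) (DP (Fin r)) := fun r h => by
    obtain ⟨a, b, hne⟩ := hab r h
    exact (red_4 (K := 4) a b hne le_rfl).trans (red_drop a)
  have h3 : ∀ r (a b : Fin r), a ≠ b → PRed (DP ℕ) (Val a b) := fun r a b h =>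
    (h2 2 le_rfl).trans (red_val h)
  have h4 : ∀ r, PRed (Sub (Fin r)) (DP ℕ) := fun r => red_eq.trans (h1 r)
  have h5 : ∀ r (a b : Fin r), PRed (Val a b) (DP ℕ) := fun r a b => (red_sub a b).trans (h4 r)
  refine ⟨fun w => (val_nc w).trans ⟨?_, ?_⟩, fun r' a b hne => ⟨⟨(h5 r' a b).reduces,
    (h3 r' a b hne).reduces⟩, fun r h => ⟨((h5 r' a b).trans (h2 r h)).reduces,
    ((h1 r).trans (h3 r' a b hne)).reduces⟩⟩, fun r' h' => ?_, fun r r' a b h hne => ⟨?_, ?_⟩⟩
  · rintro ⟨s, hs⟩
    rw [cv_nc, ← commutatorElement_def] at hs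
    exact ⟨fun i => s i.val, fun n => s (n + 2), hs⟩
  · rintro ⟨x, s, hs⟩
    refine ⟨fun n => if n = 0 then x 0 else if n = 1 then x 1 else s (n - 2), ?_⟩
    rw [cv_nc, ← commutatorElement_def, ← hs]
    congr 2
    congr 1
    funext i
    fin_cases i <;> simp
  · obtain ⟨a, b, hne⟩ := hab r' h'
    exact ⟨⟨(h4 r').reduces, ((h3 r' a b hne).trans (red_sub a b)).reduces⟩, fun r h =>
      ⟨((h4 r').trans (h2 r h)).reduces,
        ((h1 r).trans ((h3 r' a b hne).trans (red_sub a b))).reduces⟩⟩
  · exact ⟨((h5 r' a b).trans (h2 r h)).inNP, ((h1 r).trans (h3 r' a b hne)).inNP⟩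
  · exact ⟨((h4 r').trans (h2 r h)).inNP, ((h1 r).trans ((h3 r' a b hne).trans
      (red_sub a b))).inNP⟩

end Pool.Agent.Results.MP_82d1fc_lc.ConstantFree
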