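import Pool.Agent.H54.DF.Main

/-!
# MP_82d1fc_lc: the Diophantine problem in free groups and equations with few occurrences

`Wd κ` is the type of words in the variables `x_0, x_1, ...` and the constants `a`, `a : κ`; `DP κ w`
says that the equation `w = 1` has a solution in the free group on `κ`. The free group of rank `r` is
`FreeGroup (Fin r)`; `DP ℕ` is the problem for the free group of countable rank, in which the
constants are part of the input (the rank is not fixed). `DPb K κ` is the problem restricted to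
equations in which every variable occurs at most `K` times, `SL κ` the problem for systems of a
spherical quadratic equation and a linear equation. `PEquiv` is polynomial-time many-one equivalence
(Mathlib's Turing machines). The definitions are in `Pool.Agent.H54.DF.Defs`.
-/

set_option autoImplicit false

namespace Pool.Agent.Results.MP_82d1fc_lc.FourOccurrences

open Pool.Agent.H54.DF Pool.Agent.H80.Poly Pool.Agent.H72.NP

/-- the equation `w = 1` has a solution whose values all have length at most `N` -/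
def Short {κ : Type} [DecidableEq κ] (N : ℕ) (w : Wd κ) : Prop :=
  ∃ s : ℕ → FreeGroup κ, ev FreeGroup.of s w = 1 ∧ ∀ x, (s x).norm ≤ N

theorem result :
    -- the problems for all ranks, and for the rank in the input, are equivalent
    (∀ r, 2 ≤ r → PEquiv (DP (Fin r)) (DP ℕ)) ∧
    -- so are the problems for equations with at most `K` occurrences of every variable, `K ≥ 4`
    (∀ r K, 2 ≤ r → 4 ≤ K → PEquiv (DPb K (Fin r)) (DP ℕ)) ∧
    -- and the problems for systems of a spherical and a linear equation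
    (∀ r, 2 ≤ r → PEquiv (SL (Fin r)) (DP ℕ)) ∧
    -- so Q1 has the same answer for all of them
    (∀ r r' K, 2 ≤ r → 2 ≤ r' → 4 ≤ K →
      (InNP (BEnc.enc (α := Wd (Fin r))) (DP (Fin r)) ↔
        InNP (BEnc.enc (α := Wd (Fin r'))) (DP (Fin r'))) ∧
      (InNP (BEnc.enc (α := Wd (Fin r))) (DP (Fin r)) ↔
        InNP (BEnc.enc (α := Wd (Fin r'))) (DPb K (Fin r'))) ∧
      (InNP (BEnc.enc (α := Wd (Fin r))) (DP (Fin r)) ↔
        InNP (BEnc.enc (α := List (ℕ × CW (Fin r')) × Wd (Fin r'))) (SL (Fin r')))) ∧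
    -- a bound for the length of solutions for four occurrences gives one for all equations
    ∃ p : Polynomial ℕ, ∀ r r', 2 ≤ r' → ∀ f : ℕ → ℕ, Monotone f →
      (∀ w : Wd (Fin r'), (∀ x, occ x w ≤ 4) → DP (Fin r') w → Short (f w.length) w) →
      ∀ w : Wd (Fin r), DP (Fin r) w → Short (f (p.eval w.length)) w := by
  have hab : ∀ r (h : 2 ≤ r), ∃ a b : Fin r, a ≠ b := fun r h =>
    ⟨⟨0, by omega⟩, ⟨1, by omega⟩, by simp [Fin.ext_iff]⟩
  -- the reductions in the class `PolyTime`
  have h1 : ∀ r, PRed (DP (Fin r)) (DP ℕ) := fun r => red_up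
  have h2 : ∀ r K, 2 ≤ r → 4 ≤ K → PRed (DP ℕ) (DPb K (Fin r)) := fun r K h hK => by
    obtain ⟨a, b, h⟩ := hab r h
    exact red_4 a b h hK
  have h3 : ∀ r K, 2 ≤ r → PRed (DPb K (Fin r)) (DP (Fin r)) := fun r K h =>
    red_drop ⟨0, by omega⟩
  have h4 : ∀ r, 2 ≤ r → PRed (DP ℕ) (DP (Fin r)) := fun r h =>
    (h2 r 4 h le_rfl).trans (h3 r 4 h)
  have h5 : ∀ r K, 2 ≤ r → PRed (DPb K (Fin r)) (DP ℕ) := fun r K h => (h3 r K h).trans (h1 r)
  have h6 : ∀ r, 2 ≤ r → PRed (DP ℕ) (SL (Fin r)) := fun r h => by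
    obtain ⟨a, b, h⟩ := hab r h
    exact red_S a b h
  have h7 : ∀ r, PRed (SL (Fin r)) (DP ℕ) := fun r => red_mg
  refine ⟨fun r h => ⟨(h1 r).reduces, (h4 r h).reduces⟩,
    fun r K h hK => ⟨(h5 r K h).reduces, (h2 r K h hK).reduces⟩,
    fun r h => ⟨(h7 r).reduces, (h6 r h).reduces⟩, fun r r' K h h' hK => ⟨?_, ?_, ?_⟩, ?_⟩
  · exact ⟨((h1 r').trans (h4 r h)).inNP, ((h1 r).trans (h4 r' h')).inNP⟩
  · exact ⟨((h5 r' K h').trans (h4 r h)).inNP, ((h1 r).trans (h2 r' K h' hK)).inNP⟩
  · exact ⟨((h7 r').trans (h4 r h)).inNP, ((h1 r).trans (h6 r' h')).inNP⟩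
  · obtain ⟨p, hp⟩ := len_red4
    refine ⟨p, fun r r' h' f hf hS w hw => ?_⟩
    obtain ⟨a, b, hne⟩ := hab r' h'
    have hw' : DP (Fin r') (red4 a b (up 0 w)) := (dp_red4 hne _).1 (up_fwd w hw)
    obtain ⟨s, hs, hn⟩ := hS _ (occ_red4 a b _) hw'
    obtain ⟨s', hs', hn'⟩ := red4_back hne _ s hs
    obtain ⟨t, ht, hn''⟩ := up_back w s' hs'
    refine ⟨t, ht, fun x => ?_⟩
    obtain ⟨y, hy⟩ := hn' x
    refine (hn'' x).trans (hy.trans ((hn y).trans (hf ?_)))
    have := hp a b (up 0 w)
    simpa [up] using this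

end Pool.Agent.Results.MP_82d1fc_lc.FourOccurrences
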